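import Pool.Agent.H4.SE.Free
import Pool.Graph.R_pool_sql_team_seeded_64922ed1.X176.FJ.Div
import Pool.Graph.R_pool_sql_team_seeded_2aa45f1a.Q152.TC.Main

/-!
# HNN extensions which put an element in the normal closure of another one
-/

set_option autoImplicit false

namespace Pool.Agent.H4.SE

open Monoid HNNExtension SimpleGraph Pool.Agent.Helper270.HNN Pool.Agent.Helper270.Tree
open Pool.Agent.Q152.TC Pool.Agent.X176.FJ Pool.Agent.Q91.FJ
open Pool.Agent.Y462.SS (Closed)

/-- HNN extensions of torsion-free groups are torsion-free -/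
theorem tf_hnn {H : Type} [Group H] {A B : Subgroup H} {φ : A ≃* B} (hH : IsTF H) :
    IsTF (HNNExtension H A B φ) := by
  intro c n hn hc
  have hfix : ∃ v : Vert φ, c • v = v := by
    by_contra hno
    push Not at hno
    obtain ⟨L, l, hax⟩ := (treeAct (φ := φ)).exists_axis hno
    have h1 := hax.smul_zpow (n : ℤ) 0
    rw [zpow_natCast, hc, one_smul] at h1
    have h2 := hax.line.injective (isTree (φ := φ)) h1
    have h3 := hax.pos
    have h4 : (n : ℤ) * l ≠ 0 := mul_ne_zero (by exact_mod_cast hn.ne') (by exact_mod_cast h3.ne')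
    omega
  obtain ⟨v, hv⟩ := hfix
  obtain ⟨γ, rfl⟩ := exists_vt v
  rw [smul_vt, eq_comm, vt_eq_iff] at hv
  obtain ⟨k, hk⟩ := hv
  have h1 : γ⁻¹ * c * γ = of k := by rw [mul_assoc, ← hk]; group
  have h2 : (γ⁻¹ * c * γ) ^ n = γ⁻¹ * c ^ n * γ := by
    have := conj_pow (a := γ⁻¹) (b := c) (i := n)
    rwa [inv_inv] at this
  rw [h1, hc, ← map_pow] at h2
  have h3 : (of (k ^ n) : HNNExtension H A B φ) = of 1 := by rw [h2, map_one]; group
  have h4 : k = 1 := hH k n hn (of_injective _ h3)
  rw [h4, map_one] at h1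
  have h5 : c = γ * (γ⁻¹ * c * γ) * γ⁻¹ := by group
  rw [h5, h1]; group

section mem

variable {C : ∀ (G : Type) [Group G], Prop}

theorem vcyc_zpowers {G : Type} [Group G] (c : G) : VCyc (Subgroup.zpowers c) :=
  ⟨c, Subgroup.mem_zpowers c, by rw [Subgroup.relIndex_self]; exact one_ne_zero⟩

/-- HNN extensions over cyclic subgroups whose generators have the same stable length -/
theorem hnn_mem (hC : Closed C) (hS : HasSolvable C) (hA : TreeClosed C) {H : Type} [Group H]
    (hH : C H) (ν : Len H) {u v : H} {m : ℝ} (hm : 0 < m) (hu : ν.St u m) (hv : ν.St v m)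
    (φ : Subgroup.zpowers u ≃* Subgroup.zpowers v)
    (hφ : φ ⟨u, Subgroup.mem_zpowers u⟩ = ⟨v, Subgroup.mem_zpowers v⟩) :
    C (HNNExtension H (Subgroup.zpowers u) (Subgroup.zpowers v) φ) := by
  have hφk : ∀ (a : Subgroup.zpowers u) (k : ℤ), (a : H) = u ^ k → ((φ a : Subgroup.zpowers v) : H) = v ^ k := by
    intro a k ha
    have h1 : a = (⟨u, Subgroup.mem_zpowers u⟩ : Subgroup.zpowers u) ^ k := Subtype.ext ha
    rw [h1, map_zpow, hφ]
    rfl
  have hlen : ∀ (a : Subgroup.zpowers u) (m' : ℝ), ν.St (a : H) m' ↔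
      ν.St ((φ a : Subgroup.zpowers v) : H) m' := by
    intro a m'
    obtain ⟨k, hk⟩ := a.2
    have hk' : (a : H) = u ^ k := hk.symm
    rw [hφk a k hk', hk']
    constructor
    · intro h
      rw [h.unique (hu.zpow k)]
      exact hv.zpow k
    · intro h
      rw [h.unique (hv.zpow k)]
      exact hu.zpow k
  have hpos : ∀ a ∈ Subgroup.zpowers u, a ≠ 1 → ∃ m', 0 < m' ∧ ν.St a m' := by
    rintro _ ⟨k, rfl⟩ hk
    refine ⟨_, ?_, hu.zpow k⟩
    have : (k : ℝ) ≠ 0 := by
      intro h0
      apply hk
      have : k = 0 := by exact_mod_cast h0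
      show u ^ k = 1
      rw [this, zpow_zero]
    positivity
  have hbal := bal_hnn ν hlen hpos
  refine main hC hS hA (T := graph φ) isTree (treeAct (φ := φ)).adj ?_ ?_ ?_
  · intro x y hxy
    have hbase : VCyc (Pool.Agent.Q152.TC.St (HNNExtension H (Subgroup.zpowers u) (Subgroup.zpowers v) φ)
        (vt 1 : Vert φ) (vt t⁻¹ : Vert φ)) := by
      have h1 := stab_edge (φ := φ)
      show VCyc (MulAction.stabilizer _ (vt 1 : Vert φ) ⊓ MulAction.stabilizer _ (vt t⁻¹ : Vert φ))
      rw [h1, MonoidHom.map_zpowers]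
      exact vcyc_zpowers _
    have hconj : ∀ g : HNNExtension H (Subgroup.zpowers u) (Subgroup.zpowers v) φ,
        VCyc (Pool.Agent.Q152.TC.St (HNNExtension H (Subgroup.zpowers u) (Subgroup.zpowers v) φ)
        (g • vt 1 : Vert φ) (g • vt t⁻¹ : Vert φ)) := by
      intro g
      rw [St_smul]
      obtain ⟨c, hc, hi⟩ := hbase
      refine ⟨MulAut.conj g c, ⟨c, hc, rfl⟩, ?_⟩
      have h2 : Subgroup.zpowers (MulAut.conj g c) =
          (Subgroup.zpowers c).map (MulAut.conj g).toMonoidHom := by
        rw [MonoidHom.map_zpowers]; rfl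
      rw [h2, relIndex_conj]
      exact hi
    obtain ⟨g, ⟨rfl, rfl⟩ | ⟨rfl, rfl⟩⟩ := one_orbit hxy
    · exact hconj g
    · have := hconj g
      rwa [Pool.Agent.Q152.TC.St, inf_comm] at this
  · intro v'
    obtain ⟨γ, rfl⟩ := exists_vt v'
    have hr : C (of.range : Subgroup (HNNExtension H (Subgroup.zpowers u) (Subgroup.zpowers v) φ)) := by
      let e := MonoidHom.ofInjective (of_injective (φ := φ))
      exact hC.of_injective _ _ e.symm.toMonoidHom e.symm.injective hH
    let f : MulAction.stabilizer (HNNExtension H (Subgroup.zpowers u) (Subgroup.zpowers v) φ)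
        (vt γ : Vert φ) →* (of.range : Subgroup (HNNExtension H (Subgroup.zpowers u)
          (Subgroup.zpowers v) φ)) :=
      ((MulAut.conj γ⁻¹).toMonoidHom.comp (Subgroup.subtype _)).codRestrict _ (by
        rintro ⟨k, hk⟩
        have hk' : k • (vt γ : Vert φ) = vt γ := hk
        rw [smul_vt, eq_comm, vt_eq_iff] at hk'
        obtain ⟨y, hy⟩ := hk'
        refine ⟨y, ?_⟩
        show of y = γ⁻¹ * k * γ⁻¹⁻¹
        rw [inv_inv, mul_assoc, ← hy]; group)
    refine hC.of_injective _ _ f ?_ hr
    intro a b hab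
    have h1 := congrArg Subtype.val hab
    exact Subtype.ext ((MulAut.conj γ⁻¹).injective h1)
  · intro x y hxy c hc hc' hcb
    exact absurd (hbal x y hxy c hc hc') hcb

end mem

/-! ### the group with all conjugating elements -/

section adj

variable (X : Type) [Group X]

/-- the letters -/
abbrev Lt : Type := (X × X) × Bool

/-- the free product with the letters -/
abbrev Gp : Type := Coprod X (FreeGroup (Lt X))

variable {X}

/-- the relation: `b` times a conjugate of `a` is a conjugate of `a` times the conjugate of `a` -/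
def RL {D : Type} [Group D] (a b y s : D) : Prop :=
  s * (a * (y * a * y⁻¹)) * s⁻¹ = b * (y * a * y⁻¹)

/-- the relator of the pair `s` -/
def rl (s : X × X) : Gp X :=
  Coprod.inr (FreeGroup.of (s, true)) * (Coprod.inl s.1 * (Coprod.inr (FreeGroup.of (s, false)) *
    Coprod.inl s.1 * (Coprod.inr (FreeGroup.of (s, false)))⁻¹)) *
    (Coprod.inr (FreeGroup.of (s, true)))⁻¹ *
    (Coprod.inl s.2 * (Coprod.inr (FreeGroup.of (s, false)) *
    Coprod.inl s.1 * (Coprod.inr (FreeGroup.of (s, false)))⁻¹))⁻¹

variable (X) in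
/-- the group with the relations of the pairs in `E` -/
abbrev PE (E : Set (X × X)) : Type := Gp X ⧸ Subgroup.normalClosure (rl '' E)

/-- the map from `X` -/
def xP (E : Set (X × X)) : X →* PE X E := (QuotientGroup.mk' _).comp Coprod.inl

/-- the letters -/
def lP (E : Set (X × X)) (s : Lt X) : PE X E := QuotientGroup.mk' _ (Coprod.inr (FreeGroup.of s))

theorem rel_P {E : Set (X × X)} {s : X × X} (hs : s ∈ E) :
    RL (xP E s.1) (xP E s.2) (lP E (s, false)) (lP E (s, true)) := by
  have h1 : (QuotientGroup.mk' (Subgroup.normalClosure (rl '' E))) (rl s) = 1 :=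
    (QuotientGroup.eq_one_iff _).2 (Subgroup.subset_normalClosure ⟨s, hs, rfl⟩)
  unfold rl at h1
  rw [map_mul, map_inv, mul_inv_eq_one] at h1
  simp only [map_mul, map_inv] at h1
  exact h1

/-- homomorphisms -/
def liftP {D : Type} [Group D] (E : Set (X × X)) (u : X →* D) (v : Lt X → D)
    (h : ∀ s ∈ E, RL (u s.1) (u s.2) (v (s, false)) (v (s, true))) : PE X E →* D :=
  QuotientGroup.lift _ (Coprod.lift u (FreeGroup.lift v)) (by
    have h1 : Subgroup.normalClosure (rl '' E) ≤ (Coprod.lift u (FreeGroup.lift v)).ker := by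
      apply Subgroup.normalClosure_le_normal
      rintro x ⟨s, hs, rfl⟩
      show Coprod.lift u (FreeGroup.lift v) (rl s) = 1
      unfold rl
      simp only [map_mul, map_inv, Coprod.lift_apply_inl, Coprod.lift_apply_inr,
        FreeGroup.lift_apply_of]
      rw [mul_inv_eq_one]
      exact h s hs
    intro x hx
    exact h1 hx)

theorem liftP_x {D : Type} [Group D] (E : Set (X × X)) (u : X →* D) (v : Lt X → D)
    (h : ∀ s ∈ E, RL (u s.1) (u s.2) (v (s, false)) (v (s, true))) (x : X) :
    liftP E u v h (xP E x) = u x :=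
  Coprod.lift_apply_inl u (FreeGroup.lift v) x

theorem liftP_l {D : Type} [Group D] (E : Set (X × X)) (u : X →* D) (v : Lt X → D)
    (h : ∀ s ∈ E, RL (u s.1) (u s.2) (v (s, false)) (v (s, true))) (s : Lt X) :
    liftP E u v h (lP E s) = v s := by
  show Coprod.lift u (FreeGroup.lift v) (Coprod.inr (FreeGroup.of s)) = _
  rw [Coprod.lift_apply_inr, FreeGroup.lift_apply_of]

theorem P_ext {D : Type} [Group D] {E : Set (X × X)} {u v : PE X E →* D}
    (h1 : ∀ x, u (xP E x) = v (xP E x)) (h2 : ∀ s, u (lP E s) = v (lP E s)) : u = v := by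
  apply QuotientGroup.monoidHom_ext
  apply Coprod.hom_ext
  · exact MonoidHom.ext h1
  · apply FreeGroup.ext_hom
    exact h2

/-- the natural maps -/
def qP {E E' : Set (X × X)} (h : E ⊆ E') : PE X E →* PE X E' :=
  liftP E (xP E') (lP E') fun _ hs => rel_P (h hs)

/-- the stages -/
theorem stage_P {C : ∀ (G : Type) [Group G], Prop} (hC : Closed C) (hS : HasSolvable C)
    (hA : TreeClosed C) (hX : C X) (E : Set (X × X)) (hE : E.Finite)
    (hne : ∀ s ∈ E, s.1 ≠ 1 ∧ s.2 ≠ 1) :
    C (PE X E) ∧ Function.Injective (xP E) ∧ (IsTF X → IsTF (PE X E)) := by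
  classical
  induction E, hE using Set.Finite.induction_on with
  | empty =>
    let e : PE X (∅ : Set (X × X)) →* Gp X := liftP ∅ Coprod.inl (fun s => Coprod.inr (FreeGroup.of s))
      (fun s hs => absurd hs (Set.notMem_empty s))
    have he : Function.Injective e := by
      have h1 : (QuotientGroup.mk' _).comp e = MonoidHom.id (PE X (∅ : Set (X × X))) := by
        apply P_ext
        · intro x
          rw [MonoidHom.comp_apply, liftP_x]
          rfl
        · intro s
          rw [MonoidHom.comp_apply, liftP_l]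
          rfl
      intro a b hab
      have h2 := DFunLike.congr_fun h1 a
      have h3 := DFunLike.congr_fun h1 b
      rw [MonoidHom.comp_apply, MonoidHom.id_apply] at h2 h3
      rw [← h2, ← h3, hab]
    refine ⟨?_, ?_, ?_⟩
    · exact hC.of_injective _ _ e he (hC.coprod _ _ hX
        (Pool.Agent.Y179.SS.t_free C hC _))
    · intro a b hab
      have h1 := congrArg e hab
      rw [show e (xP ∅ a) = Coprod.inl a from liftP_x _ _ _ _ a,
        show e (xP ∅ b) = Coprod.inl b from liftP_x _ _ _ _ b] at h1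
      exact Coprod.inl_injective h1
    · intro htf g n hn hg
      have h1 : (e g) ^ n = 1 := by rw [← map_pow, hg, map_one]
      exact he ((tf_coprod htf (tf_free _) _ n hn h1).trans (map_one e).symm)
  | @insert s E hs _ ih =>
    obtain ⟨h1, h2, h3⟩ := ih fun s' hs' => hne s' (Or.inr hs')
    obtain ⟨ha, hb⟩ := hne s (Or.inl rfl)
    set a : PE X E := xP E s.1 with hadef
    set b : PE X E := xP E s.2 with hbdef
    have ha1 : a ≠ 1 := fun h => ha (h2 (h.trans (map_one _).symm))
    have hb1 : b ≠ 1 := fun h => hb (h2 (h.trans (map_one _).symm))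
    set y : PE X E := lP E (s, false) with hy
    -- the length function
    let D : Type := HNNExtension (PE X E) ⊥ ⊥ (MulEquiv.refl _)
    let δ : PE X E →* D := liftP E ((of : PE X E →* D).comp (xP E))
      (fun l => if l = (s, false) then t else of (lP E l)) (by
        intro s' hs'
        have hne1 : ((s', false) : Lt X) ≠ (s, false) := by
          intro h
          rw [Prod.mk.injEq] at h
          exact hs (h.1 ▸ hs')
        have hne2 : ((s', true) : Lt X) ≠ (s, false) := by
          intro h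
          rw [Prod.mk.injEq] at h
          exact Bool.noConfusion h.2
        rw [if_neg hne1, if_neg hne2]
        have := congrArg (of : PE X E →* D) (rel_P hs')
        simp only [map_mul, map_inv] at this
        exact this)
    have hδx : ∀ x, δ (xP E x) = of (xP E x) := fun x => liftP_x _ _ _ _ x
    have hδy : δ y = t := (liftP_l _ _ _ _ _).trans (if_pos rfl)
    let ν : Len (PE X E) := (nu (MulEquiv.refl (⊥ : Subgroup (PE X E)))).comap δ
    have hst : ∀ c : PE X E, (∃ x, c = xP E x) → c ≠ 1 → ν.St (c * (y * a * y⁻¹)) 2 := by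
      rintro c ⟨x, rfl⟩ hc
      apply Len.St.comap
      have e1 : δ (xP E x * (y * a * y⁻¹)) = of (xP E x) * (t * of a * t⁻¹) := by
        rw [map_mul, map_mul, map_mul, map_inv, hδy, hadef, hδx, hδx]
      rw [e1]
      exact nu_st ha1 hc
    have hu := hst a ⟨_, rfl⟩ ha1
    have hv := hst b ⟨_, rfl⟩ hb1
    have hui := hu.inf two_pos
    have hvi := hv.inf two_pos
    set u : PE X E := a * (y * a * y⁻¹) with hudef
    set v : PE X E := b * (y * a * y⁻¹) with hvdef
    -- the isomorphism of the cyclic subgroups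
    obtain ⟨φ, hφ⟩ : ∃ φ : Subgroup.zpowers u ≃* Subgroup.zpowers v,
        φ ⟨u, Subgroup.mem_zpowers u⟩ = ⟨v, Subgroup.mem_zpowers v⟩ := by
      have e1 : Function.Injective (zpowersHom (PE X E) u) := by
        intro p q hpq
        exact (injective_zpow_iff_not_isOfFinOrder.2 hui) hpq
      have e2 : Function.Injective (zpowersHom (PE X E) v) := by
        intro p q hpq
        exact (injective_zpow_iff_not_isOfFinOrder.2 hvi) hpq
      have r1 : (zpowersHom (PE X E) u).range = Subgroup.zpowers u := rfl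
      have r2 : (zpowersHom (PE X E) v).range = Subgroup.zpowers v := rfl
      let φ1 : Multiplicative ℤ ≃* Subgroup.zpowers u :=
        (MonoidHom.ofInjective e1).trans (MulEquiv.subgroupCongr r1)
      let φ2 : Multiplicative ℤ ≃* Subgroup.zpowers v :=
        (MonoidHom.ofInjective e2).trans (MulEquiv.subgroupCongr r2)
      refine ⟨φ1.symm.trans φ2, ?_⟩
      have e3 : φ1 (Multiplicative.ofAdd 1) = ⟨u, Subgroup.mem_zpowers u⟩ :=
        Subtype.ext (zpow_one u)
      have e4 : φ2 (Multiplicative.ofAdd 1) = ⟨v, Subgroup.mem_zpowers v⟩ :=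
        Subtype.ext (zpow_one v)
      rw [MulEquiv.trans_apply, ← e3, MulEquiv.symm_apply_apply, e4]
    let Γ : Type := HNNExtension (PE X E) (Subgroup.zpowers u) (Subgroup.zpowers v) φ
    have hΓ : C Γ := hnn_mem hC hS hA h1 ν two_pos hu hv φ hφ
    have hrel : RL (of a : Γ) (of b) (of y) t := by
      have h4 := t_mul_of (φ := φ) (⟨u, Subgroup.mem_zpowers u⟩ : Subgroup.zpowers u)
      rw [hφ] at h4
      show (t : Γ) * (of a * (of y * of a * (of y)⁻¹)) * t⁻¹ = of b * (of y * of a * (of y)⁻¹)
      rw [mul_inv_eq_iff_eq_mul]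
      simp only [← map_mul, ← map_inv]
      exact h4
    let f : PE X (insert s E) →* Γ := liftP _ ((of : PE X E →* Γ).comp (xP E))
      (fun l => if l = (s, true) then t else of (lP E l)) (by
        intro s' hs'
        have hne0 : ∀ s'' : X × X, ((s'', false) : Lt X) ≠ (s, true) := by
          intro s'' h
          rw [Prod.mk.injEq] at h
          exact Bool.noConfusion h.2
        by_cases hss : s' = s
        · subst hss
          rw [if_neg (hne0 _), if_pos rfl]
          exact hrel
        · have hsE : s' ∈ E := hs'.resolve_left hss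
          have hne2 : ((s', true) : Lt X) ≠ (s, true) := by
            intro h
            rw [Prod.mk.injEq] at h
            exact hss h.1
          rw [if_neg (hne0 _), if_neg hne2]
          have := congrArg (of : PE X E →* Γ) (rel_P hsE)
          simp only [map_mul, map_inv] at this
          exact this)
    have hsub : E ⊆ insert s E := Set.subset_insert s E
    let r : Γ →* PE X (insert s E) := HNNExtension.lift (qP hsub) (lP _ (s, true)) (by
      rintro ⟨w, k, rfl⟩
      have e1 : ((φ ⟨u ^ k, k, rfl⟩ : Subgroup.zpowers v) : PE X E) = v ^ k := by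
        have : (⟨u ^ k, k, rfl⟩ : Subgroup.zpowers u) = ⟨u, Subgroup.mem_zpowers u⟩ ^ k := rfl
        rw [this, map_zpow, hφ]
        rfl
      show lP _ (s, true) * qP hsub (u ^ k) = qP hsub ((φ ⟨u ^ k, k, rfl⟩ : Subgroup.zpowers v) : PE X E) * lP _ (s, true)
      rw [e1, map_zpow, map_zpow, ← mul_inv_eq_iff_eq_mul, ← conj_zpow]
      congr 1
      have h4 := rel_P (E := insert s E) (Set.mem_insert s E)
      have hqx : ∀ x, qP hsub (xP E x) = xP _ x := fun x => liftP_x _ _ _ _ x
      have hql : ∀ l, qP hsub (lP E l) = lP _ l := fun l => liftP_l _ _ _ _ l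
      rw [hudef, hvdef, hadef, hbdef, hy]
      simp only [map_mul, map_inv, hqx, hql]
      exact h4)
    have hrf : r.comp f = MonoidHom.id _ := by
      apply P_ext
      · intro x
        show r (f (xP _ x)) = xP _ x
        rw [show f (xP _ x) = of (xP E x) from liftP_x _ _ _ _ x]
        rw [show r (of (xP E x)) = qP hsub (xP E x) from HNNExtension.lift_of _ _ _ _]
        exact liftP_x _ _ _ _ x
      · intro l
        show r (f (lP _ l)) = lP _ l
        rw [show f (lP _ l) = (if l = (s, true) then t else of (lP E l)) from liftP_l _ _ _ _ l]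
        by_cases hl : l = (s, true)
        · rw [if_pos hl, hl]
          exact HNNExtension.lift_t _ _ _
        · rw [if_neg hl]
          rw [show r (of (lP E l)) = qP hsub (lP E l) from HNNExtension.lift_of _ _ _ _]
          exact liftP_l _ _ _ _ l
    have hf : Function.Injective f := by
      intro x y hxy
      have e1 := DFunLike.congr_fun hrf x
      have e2 := DFunLike.congr_fun hrf y
      rw [MonoidHom.comp_apply, MonoidHom.id_apply] at e1 e2
      rw [← e1, ← e2, hxy]
    refine ⟨hC.of_injective _ _ f hf hΓ, ?_, ?_⟩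
    · intro x x' hxx
      have e1 := congrArg f hxx
      rw [show f (xP _ x) = of (xP E x) from liftP_x _ _ _ _ x,
        show f (xP _ x') = of (xP E x') from liftP_x _ _ _ _ x'] at e1
      exact h2 (of_injective _ e1)
    · intro htf g n hn hg
      have e1 : (f g) ^ n = 1 := by rw [← map_pow, hg, map_one]
      exact hf ((tf_hnn (h3 htf) _ n hn e1).trans (map_one f).symm)

/-- the relations of an element of the normal closure -/
theorem nc_finP (E : Set (X × X)) (x : Gp X) (hx : x ∈ Subgroup.normalClosure (rl '' E)) :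
    ∃ E0 : Set (X × X), E0.Finite ∧ E0 ⊆ E ∧ x ∈ Subgroup.normalClosure (rl '' E0) := by
  have hmono : ∀ {E1 E2 : Set (X × X)}, E1 ⊆ E2 →
      Subgroup.normalClosure (rl '' E1) ≤ Subgroup.normalClosure (rl '' E2) :=
    fun h => Subgroup.normalClosure_mono (Set.image_mono h)
  induction hx using Subgroup.closure_induction with
  | mem x hx =>
    obtain ⟨y, ⟨s, hs, rfl⟩, hc⟩ := Group.mem_conjugatesOfSet_iff.1 hx
    refine ⟨{s}, Set.finite_singleton s, Set.singleton_subset_iff.2 hs, ?_⟩
    apply Subgroup.subset_closure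
    exact Group.mem_conjugatesOfSet_iff.2 ⟨_, ⟨s, rfl, rfl⟩, hc⟩
  | one => exact ⟨∅, Set.finite_empty, Set.empty_subset _, Subgroup.one_mem _⟩
  | mul x y _ _ hx hy =>
    obtain ⟨E1, h1, h1', h1''⟩ := hx
    obtain ⟨E2, h2, h2', h2''⟩ := hy
    exact ⟨E1 ∪ E2, h1.union h2, Set.union_subset h1' h2',
      Subgroup.mul_mem _ (hmono Set.subset_union_left h1'') (hmono Set.subset_union_right h2'')⟩
  | inv x _ hx =>
    obtain ⟨E1, h1, h1', h1''⟩ := hx
    exact ⟨E1, h1, h1', Subgroup.inv_mem _ h1''⟩

theorem qP_mk {E E' : Set (X × X)} (h : E ⊆ E') (x : Gp X) :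
    qP h (QuotientGroup.mk' _ x) = QuotientGroup.mk' (Subgroup.normalClosure (rl '' E')) x := by
  have h1 : (qP h).comp (QuotientGroup.mk' _) =
      QuotientGroup.mk' (Subgroup.normalClosure (rl '' E')) := by
    apply Coprod.hom_ext
    · ext x
      exact liftP_x E (xP E') (lP E') (fun _ hs => rel_P (h hs)) x
    · apply FreeGroup.ext_hom
      intro s
      exact liftP_l E (xP E') (lP E') (fun _ hs => rel_P (h hs)) s
  exact DFunLike.congr_fun h1 x

/-- the group with all relations -/
theorem all_P {C : ∀ (G : Type) [Group G], Prop} (hC : Closed C) (hS : HasSolvable C)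
    (hA : TreeClosed C) (hX : C X) (E : Set (X × X)) (hne : ∀ s ∈ E, s.1 ≠ 1 ∧ s.2 ≠ 1) :
    C (PE X E) ∧ Function.Injective (xP E) ∧ (IsTF X → IsTF (PE X E)) := by
  have hker : ∀ (E0 : Set (X × X)) (_ : E0 ⊆ E) (x : Gp X), E0.Finite →
      (QuotientGroup.mk' (Subgroup.normalClosure (rl '' E))) x = 1 →
      ∃ (E1 : Set (X × X)) (_ : E1.Finite) (_ : E1 ⊆ E) (_ : E0 ⊆ E1),
        (QuotientGroup.mk' (Subgroup.normalClosure (rl '' E1))) x = 1 := by
    intro E0 h0 x hf hx
    obtain ⟨E1, h1, h1', h1''⟩ := nc_finP E x ((QuotientGroup.eq_one_iff x).1 hx)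
    refine ⟨E0 ∪ E1, hf.union h1, Set.union_subset h0 h1', Set.subset_union_left, ?_⟩
    exact (QuotientGroup.eq_one_iff x).2
      (Subgroup.normalClosure_mono (Set.image_mono Set.subset_union_right) h1'')
  have hst : ∀ E1 : Set (X × X), E1.Finite → E1 ⊆ E → C (PE X E1) ∧ Function.Injective (xP E1) ∧
      (IsTF X → IsTF (PE X E1)) := fun E1 h1 h2 =>
    stage_P hC hS hA hX E1 h1 fun s hs => hne s (h2 hs)
  refine ⟨?_, ?_, ?_⟩
  · have : Nonempty {F : Set (X × X) // F.Finite ∧ F ⊆ E} :=
      ⟨⟨∅, Set.finite_empty, Set.empty_subset _⟩⟩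
    refine hC.colim {F : Set (X × X) // F.Finite ∧ F ⊆ E}
      (fun F F' => ⟨⟨F.1 ∪ F'.1, F.2.1.union F'.2.1, Set.union_subset F.2.2 F'.2.2⟩,
        Set.subset_union_left, Set.subset_union_right⟩)
      (fun F => PE X F.1) (fun F F' h => qP h) (PE X E) (fun F => qP F.2.2) ?_ ?_ ?_ ?_ ?_ ?_
    · intro F h x
      obtain ⟨x, rfl⟩ := QuotientGroup.mk'_surjective _ x
      rw [qP_mk]
    · intro F F' F'' h h' x
      obtain ⟨x, rfl⟩ := QuotientGroup.mk'_surjective _ x
      rw [qP_mk, qP_mk, qP_mk]
    · intro F F' h x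
      obtain ⟨x, rfl⟩ := QuotientGroup.mk'_surjective _ x
      rw [qP_mk, qP_mk, qP_mk]
    · intro y
      obtain ⟨x, rfl⟩ := QuotientGroup.mk'_surjective _ y
      exact ⟨⟨∅, Set.finite_empty, Set.empty_subset _⟩, QuotientGroup.mk' _ x, qP_mk _ x⟩
    · intro F x hx
      obtain ⟨x, rfl⟩ := QuotientGroup.mk'_surjective _ x
      rw [qP_mk] at hx
      obtain ⟨E1, h1, h2, h3, h4⟩ := hker F.1 F.2.2 x F.2.1 hx
      exact ⟨⟨E1, h1, h2⟩, h3, by rw [qP_mk, h4]⟩
    · intro F
      exact (hst F.1 F.2.1 F.2.2).1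
  · rw [injective_iff_map_eq_one]
    intro x hx
    obtain ⟨E1, h1, h2, _, h4⟩ := hker ∅ (Set.empty_subset _) (Coprod.inl x) Set.finite_empty hx
    exact (hst E1 h1 h2).2.1 (h4.trans (map_one _).symm)
  · intro htf g n hn hg
    obtain ⟨x, rfl⟩ := QuotientGroup.mk'_surjective _ g
    rw [← map_pow] at hg
    obtain ⟨E1, h1, h2, _, h4⟩ := hker ∅ (Set.empty_subset _) (x ^ n) Set.finite_empty hg
    rw [map_pow] at h4
    have h5 := (hst E1 h1 h2).2.2 htf _ n hn h4
    rw [← qP_mk h2, h5, map_one]

/-- a letter is not trivial -/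
theorem lP_ne_one (E : Set (X × X)) (hE : ((1 : X), (1 : X)) ∉ E) : lP E ((1, 1), false) ≠ 1 := by
  classical
  let f : PE X E →* Multiplicative ℤ := liftP E 1
    (fun l => if l = ((1, 1), false) then Multiplicative.ofAdd 1 else 1) (by
      intro s hs
      have hne : s ≠ (1, 1) := fun h => hE (h ▸ hs)
      have h1 : ((s, false) : Lt X) ≠ ((1, 1), false) := by
        intro h
        rw [Prod.mk.injEq] at h
        exact hne h.1
      have h2 : ((s, true) : Lt X) ≠ ((1, 1), false) := by
        intro h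
        rw [Prod.mk.injEq] at h
        exact hne h.1
      rw [if_neg h1, if_neg h2]
      simp [RL])
  intro h
  have h1 := congrArg f h
  rw [show f (lP E ((1, 1), false)) = _ from liftP_l _ _ _ _ _, if_pos rfl, map_one f] at h1
  have h2 : (1 : ℤ) = 0 := congrArg Multiplicative.toAdd h1
  exact one_ne_zero h2

end adj

end Pool.Agent.H4.SE
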