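import Pool.Agent.H4.SE.Len

/-!
# The length function of the free product with an infinite cyclic group
-/

set_option autoImplicit false

namespace Pool.Agent.H4.SE

open HNNExtension Pool.Agent.Helper270.HNN Pool.Agent.Helper270.Tree Pool.Agent.Q152.TC
open SimpleGraph HNNExtension.NormalWord

/-- pull back of a length function -/
def Len.comap {H K : Type} [Group H] [Group K] (ν : Len K) (δ : H →* K) : Len H where
  f x := ν.f (δ x)
  one := by rw [map_one, ν.one]
  inv x := by rw [map_inv, ν.inv]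
  mul x y := by rw [map_mul]; exact ν.mul _ _

theorem Len.St.comap {H K : Type} [Group H] [Group K] {ν : Len K} {δ : H →* K} {c : H} {m : ℝ}
    (h : ν.St (δ c) m) : (ν.comap δ).St c m := by
  obtain ⟨C, hC⟩ := h
  exact ⟨C, fun n => by
    have := hC n
    rwa [← map_pow] at this⟩

section lev

variable {H : Type} [Group H] {A B : Subgroup H} {φ : A ≃* B} (d : TransversalPair H A B)

theorem lev_adj {x y : Vert φ} (h : (graph φ).Adj x y) : (nf d y).length ≤ (nf d x).length + 1 := by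
  have key : ∀ g : HNNExtension H A B φ, (nf d (vt (g * t))).length ≤ (nf d (vt g)).length + 1 ∧
      (nf d (vt g)).length ≤ (nf d (vt (g * t))).length + 1 := by
    intro g
    have h1 := nw_t_mul d (-1) g⁻¹
    have e : ((t : HNNExtension H A B φ) ^ ((-1 : ℤˣ) : ℤ)) * g⁻¹ = (g * t)⁻¹ := by
      simp
    rw [e] at h1
    rcases tail_cases d (φ := φ) (-1) (nw d g⁻¹) with ⟨h2, h3⟩ | ⟨h2, h3⟩
    · rw [← h1, ← nf_vt, ← nf_vt] at h2
      rw [h2, List.length_tail]
      omega
    · rw [← h1, ← nf_vt, ← nf_vt] at h2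
      rw [← h2, List.length_tail]
      omega
  obtain ⟨g, ⟨rfl, rfl⟩ | ⟨rfl, rfl⟩⟩ := adj_iff.mp h
  · exact (key g).1
  · exact (key g).2

theorem lev_walk {x y : Vert φ} (w : (graph φ).Walk x y) :
    (nf d y).length ≤ (nf d x).length + w.length := by
  induction w with
  | nil => simp
  | @cons x z y h p ih =>
    have := lev_adj d h
    rw [Walk.length_cons]
    omega

theorem lev_dist (y : Vert φ) : (nf d y).length ≤ (graph φ).dist (vt 1) y := by
  obtain ⟨w, hw⟩ := (isTree (φ := φ)).connected.exists_walk_length_eq_dist (vt 1) y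
  have h1 := lev_walk d w
  have h2 : nf d (vt (1 : HNNExtension H A B φ)) = [] := by
    rw [nf_vt, inv_one]
    have : (1 : HNNExtension H A B φ) = (empty : NormalWord d).prod φ := by simp
    rw [this, nw_of_prod]; rfl
  rw [h2] at h1
  simp only [List.length_nil, zero_add] at h1
  omega

theorem lev_word (w : ReducedWord H A B) (g : HNNExtension H A B φ) (h : w.prod φ = g⁻¹) :
    (nf d (vt g)).length = w.toList.length := by
  rw [nf_vt]
  obtain ⟨w', h1, h2, -⟩ := ReducedWord.exists_normalWord_prod_eq φ d w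
  have h3 : nw d g⁻¹ = w' := by
    rw [← h, ← h1, nw_of_prod]
  rw [h3]
  have := congrArg List.length h2
  simpa using this

end lev

section free

variable {Q : Type} [Group Q] {φ : (⊥ : Subgroup Q) ≃* (⊥ : Subgroup Q)}

/-- the word `(t a t⁻¹ b) ^ n` -/
def wl (a b : Q) : ℕ → List (ℤˣ × Q)
  | 0 => []
  | n + 1 => (1, a) :: (-1, b) :: wl a b n

theorem wl_chain {a b : Q} (ha : a ≠ 1) (hb : b ≠ 1) (n : ℕ) :
    (wl a b n).IsChain (fun x y => x.2 ∈ toSubgroup (⊥ : Subgroup Q) ⊥ x.1 → x.1 = y.1) := by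
  have h0 : ∀ (u : ℤˣ) (x : Q), x ∈ toSubgroup (⊥ : Subgroup Q) ⊥ u → x = 1 := by
    intro u x hx
    unfold toSubgroup at hx
    split_ifs at hx <;> simpa using hx
  induction n with
  | zero => exact List.isChain_nil
  | succ n ih =>
    refine List.isChain_cons_cons.2 ⟨fun h => absurd (h0 _ _ h) ha, List.isChain_cons.2 ⟨?_, ih⟩⟩
    intro y _ h
    exact absurd (h0 _ _ h) hb

theorem wl_length (a b : Q) (n : ℕ) : (wl a b n).length = 2 * n := by
  induction n with
  | zero => rfl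
  | succ n ih => rw [wl, List.length_cons, List.length_cons, ih]; ring

theorem wl_prod (a b : Q) (n : ℕ) :
    ((wl a b n).map (fun x => (t : HNNExtension Q ⊥ ⊥ φ) ^ (x.1 : ℤ) * of x.2)).prod =
      (t * of a * t⁻¹ * of b) ^ n := by
  induction n with
  | zero => simp [wl]
  | succ n ih =>
    rw [wl, List.map_cons, List.map_cons, List.prod_cons, List.prod_cons, ih, pow_succ']
    simp [mul_assoc]

/-- the length function -/
noncomputable def nu (φ : (⊥ : Subgroup Q) ≃* (⊥ : Subgroup Q)) : Len (HNNExtension Q ⊥ ⊥ φ) :=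
  treeLen (treeAct (φ := φ)) (vt 1)

theorem nu_pow (φ : (⊥ : Subgroup Q) ≃* (⊥ : Subgroup Q)) (x : HNNExtension Q ⊥ ⊥ φ) (n : ℕ) :
    (nu φ).f (x ^ n) ≤ n * (nu φ).f x := by
  induction n with
  | zero => rw [pow_zero, (nu φ).one]; simp
  | succ n ih =>
    rw [pow_succ]
    have := (nu φ).mul (x ^ n) x
    push_cast
    linarith

theorem nu_st {a b : Q} (ha : a ≠ 1) (hb : b ≠ 1) :
    (nu φ).St (of b * (t * of a * t⁻¹)) 2 := by
  obtain ⟨d⟩ := TransversalPair.nonempty Q ⊥ ⊥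
  refine ⟨0, fun n => ?_⟩
  have hof : ∀ x : Q, (nu φ).f (of x) = 0 := by
    intro x
    show (((graph φ).dist (vt 1) ((of x : HNNExtension Q ⊥ ⊥ φ) • vt 1) : ℕ) : ℝ) = 0
    rw [(stab_one (of x : HNNExtension Q ⊥ ⊥ φ)).2 ⟨x, rfl⟩, SimpleGraph.dist_self]
    exact Nat.cast_zero
  have ht : (nu φ).f t ≤ 1 := by
    show (((graph φ).dist (vt 1) ((t : HNNExtension Q ⊥ ⊥ φ) • vt 1) : ℕ) : ℝ) ≤ 1
    have h1 : (graph φ).Adj (vt 1) ((t : HNNExtension Q ⊥ ⊥ φ) • vt 1) := by
      rw [smul_vt]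
      have := adj_vt (1 : HNNExtension Q ⊥ ⊥ φ)
      rwa [one_mul, ← mul_one t] at this
    rw [SimpleGraph.dist_eq_one_iff_adj.2 h1]
    simp
  have hup : (nu φ).f (of b * (t * of a * t⁻¹)) ≤ 2 := by
    have h1 := (nu φ).mul (of b) (t * of a * t⁻¹)
    have h2 := (nu φ).mul (t * of a) t⁻¹
    have h3 := (nu φ).mul t (of a)
    rw [(nu φ).inv] at h2
    rw [hof] at h1 h3
    linarith
  have h1 := nu_pow φ (of b * (t * of a * t⁻¹)) n
  have h2 : (2 * n : ℝ) ≤ (nu φ).f ((of b * (t * of a * t⁻¹)) ^ n) := by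
    let w : ReducedWord Q ⊥ ⊥ :=
      { head := 1
        toList := wl a⁻¹ b⁻¹ n
        chain := wl_chain (inv_ne_one.2 ha) (inv_ne_one.2 hb) n }
    have h3 : w.prod φ = ((of b * (t * of a * t⁻¹)) ^ n : HNNExtension Q ⊥ ⊥ φ)⁻¹ := by
      show of 1 * ((wl a⁻¹ b⁻¹ n).map (fun x => (t : HNNExtension Q ⊥ ⊥ φ) ^ (x.1 : ℤ) * of x.2)).prod = _
      rw [wl_prod, map_one, one_mul, ← inv_pow]
      simp only [map_inv, mul_inv_rev, inv_inv, mul_assoc]
    have h4 := lev_word d w _ h3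
    have h5 := lev_dist d (vt ((of b * (t * of a * t⁻¹)) ^ n) : Vert φ)
    rw [h4] at h5
    have h6 : w.toList.length = 2 * n := wl_length _ _ n
    rw [h6] at h5
    show (2 * n : ℝ) ≤ (((graph φ).dist (vt 1)
      (((of b * (t * of a * t⁻¹)) ^ n : HNNExtension Q ⊥ ⊥ φ) • vt 1) : ℕ) : ℝ)
    rw [smul_vt, mul_one]
    exact_mod_cast h5
  rw [abs_le]
  constructor
  · linarith
  · have h3 : (n : ℝ) * (nu φ).f (of b * (t * of a * t⁻¹)) ≤ n * 2 :=
      mul_le_mul_of_nonneg_left hup (Nat.cast_nonneg n)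
    linarith

end free

end Pool.Agent.H4.SE
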