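import Pool.Graph.R_seed8.Helper270.HNN
import Pool.Graph.R_pool_sql_team_seeded_2aa45f1a.Q152.TC.Hyp

/-!
# Length functions and balanced elements of HNN extensions
-/

set_option autoImplicit false

namespace Pool.Agent.H4.SE

open HNNExtension Pool.Agent.Helper270.HNN Pool.Agent.Helper270.Tree Pool.Agent.Q152.TC
open SimpleGraph

/-- a length function -/
structure Len (H : Type) [Group H] where
  /-- the function -/
  f : H → ℝ
  one : f 1 = 0
  inv : ∀ x, f x⁻¹ = f x
  mul : ∀ x y, f (x * y) ≤ f x + f y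

variable {H : Type} [Group H]

namespace Len

/-- the stable length of `c` is `m` -/
def St (ν : Len H) (c : H) (m : ℝ) : Prop := ∃ C, ∀ n : ℕ, |ν.f (c ^ n) - m * n| ≤ C

theorem St.unique {ν : Len H} {c : H} {m m' : ℝ} (h : ν.St c m) (h' : ν.St c m') : m = m' := by
  obtain ⟨C, hC⟩ := h
  obtain ⟨C', hC'⟩ := h'
  by_contra hne
  have hpos : 0 < |m - m'| := abs_pos.2 (sub_ne_zero.2 hne)
  obtain ⟨n, hn⟩ := exists_nat_gt ((C + C') / |m - m'|)
  rw [div_lt_iff₀ hpos] at hn
  have h1 := hC n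
  have h2 := hC' n
  have h3 : |(m - m') * n| ≤ C + C' := by
    have e : (m - m') * n = (ν.f (c ^ n) - m' * n) - (ν.f (c ^ n) - m * n) := by ring
    rw [e]
    exact (abs_sub _ _).trans (by linarith)
  rw [abs_mul, Nat.abs_cast] at h3
  linarith

theorem St.conj {ν : Len H} {c : H} {m : ℝ} (h : ν.St c m) (x : H) : ν.St (x * c * x⁻¹) m := by
  obtain ⟨C, hC⟩ := h
  refine ⟨C + 2 * ν.f x, fun n => ?_⟩
  have e : (x * c * x⁻¹) ^ n = x * c ^ n * x⁻¹ := conj_pow
  rw [e]
  have h1 : ν.f (x * c ^ n * x⁻¹) ≤ ν.f (c ^ n) + 2 * ν.f x := by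
    have a1 := ν.mul (x * c ^ n) x⁻¹
    have a2 := ν.mul x (c ^ n)
    rw [ν.inv] at a1
    linarith
  have h2 : ν.f (c ^ n) ≤ ν.f (x * c ^ n * x⁻¹) + 2 * ν.f x := by
    have a1 := ν.mul (x⁻¹ * (x * c ^ n * x⁻¹)) x
    have a2 := ν.mul x⁻¹ (x * c ^ n * x⁻¹)
    rw [ν.inv] at a2
    have e2 : x⁻¹ * (x * c ^ n * x⁻¹) * x = c ^ n := by group
    rw [e2] at a1
    linarith
  have h3 := abs_le.1 (hC n)
  rw [abs_le]
  constructor <;> linarith [h3.1, h3.2]

theorem St.zpow {ν : Len H} {c : H} {m : ℝ} (h : ν.St c m) (k : ℤ) : ν.St (c ^ k) (|(k : ℝ)| * m) := by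
  obtain ⟨C, hC⟩ := h
  refine ⟨C, fun n => ?_⟩
  have h1 := hC (k.natAbs * n)
  have h2 : ν.f ((c ^ k) ^ n) = ν.f (c ^ (k.natAbs * n)) := by
    rw [← zpow_natCast, ← zpow_mul, ← zpow_natCast c]
    rcases Int.natAbs_eq k with h3 | h3
    · conv_lhs => rw [h3]
      push_cast
      rfl
    · conv_lhs => rw [h3]
      rw [← ν.inv, ← zpow_neg]
      congr 2
      push_cast
      ring
  have h3 : |(k : ℝ)| * m * n = m * ((k.natAbs * n : ℕ) : ℝ) := by
    have : |(k : ℝ)| = (k.natAbs : ℝ) := by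
      rw [Nat.cast_natAbs, Int.cast_abs]
    rw [this]
    push_cast
    ring
  rw [h2, h3]
  exact h1

theorem St.inf {ν : Len H} {c : H} {m : ℝ} (h : ν.St c m) (hm : 0 < m) : ¬ IsOfFinOrder c := by
  intro hc
  obtain ⟨n, hn, h1⟩ := isOfFinOrder_iff_pow_eq_one.1 hc
  have h2 := h.zpow n
  rw [zpow_natCast, h1] at h2
  have h3 : ν.St 1 0 := ⟨0, fun n => by rw [one_pow, ν.one]; simp⟩
  have h4 := h2.unique h3
  have h5 : (0 : ℝ) < |((n : ℤ) : ℝ)| := abs_pos.2 (by exact_mod_cast hn.ne')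
  have := mul_pos h5 hm
  linarith

end Len

/-- the length function of an action on a tree -/
noncomputable def treeLen {V : Type} [MulAction H V] {T : SimpleGraph V} (h : TreeAct H T) (x : V) :
    Len H where
  f g := (T.dist x (g • x) : ℝ)
  one := by rw [one_smul, SimpleGraph.dist_self]; simp
  inv g := by
    have h1 := dist_smul' h.isTree h.adj g x (g⁻¹ • x)
    rw [smul_inv_smul] at h1
    rw [← h1, SimpleGraph.dist_comm]
  mul g k := by
    have h1 := dist_smul' h.isTree h.adj g x (k • x)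
    have h2 := h.isTree.connected.dist_triangle (u := x) (v := g • x) (w := g • k • x)
    rw [mul_smul, ← h1]
    exact_mod_cast h2

section hnn

variable {A B : Subgroup H} {φ : A ≃* B}

/-- elements which fix two vertices have the same stable length at both -/
theorem path_len (ν : Len H) (hφ : ∀ (a : A) (m : ℝ), ν.St (a : H) m ↔ ν.St (φ a : H) m)
    {x y : Vert φ} (w : (graph φ).Walk x y) (c : HNNExtension H A B φ)
    (hc : ∀ z ∈ w.support, c • z = z) (m : ℝ) :
    ∀ γ γ' h h', x = vt γ → y = vt γ' → γ⁻¹ * c * γ = of h → γ'⁻¹ * c * γ' = of h' →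
      ν.St h m → ν.St h' m := by
  -- change of the representative of a vertex
  have key : ∀ (γ γ' : HNNExtension H A B φ) (h h' : H), vt γ = vt γ' → γ⁻¹ * c * γ = of h →
      γ'⁻¹ * c * γ' = of h' → ν.St h m → ν.St h' m := by
    intro γ γ' h h' he h1 h2 hS
    obtain ⟨k, hk⟩ := vt_eq_iff.mp he
    have h3 : (of h' : HNNExtension H A B φ) = of (k⁻¹ * h * k) := by
      rw [← h2, ← hk, map_mul, map_mul, map_inv, ← h1]
      group
    have h4 : h' = k⁻¹ * h * k := of_injective _ h3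
    rw [h4]
    have := hS.conj k⁻¹
    rwa [inv_inv] at this
  induction w with
  | nil =>
    intro γ γ' h h' hx hy h1 h2 hS
    exact key γ γ' h h' (hx.symm.trans hy) h1 h2 hS
  | @cons x z y hxz p ih =>
    intro γ γ' h h' hx hy h1 h2 hS
    have hcx : c • x = x := hc x (by simp)
    have hcz : c • z = z := hc z (by simp)
    have hcp : ∀ z ∈ p.support, c • z = z := fun z' hz' => hc z' (by
      rw [Walk.support_cons]; exact List.mem_cons_of_mem _ hz')
    -- elements of the stabilizer of a vertex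
    have hrep : ∀ g : HNNExtension H A B φ, c • (vt g : Vert φ) = vt g → ∃ k : H, g⁻¹ * c * g = of k := by
      intro g hg
      rw [smul_vt, eq_comm, vt_eq_iff] at hg
      obtain ⟨k, hk⟩ := hg
      exact ⟨k, by rw [mul_assoc, ← hk]; group⟩
    obtain ⟨g, ⟨rfl, rfl⟩ | ⟨rfl, rfl⟩⟩ := adj_iff.mp hxz
    · obtain ⟨k, hk⟩ := hrep g hcx
      obtain ⟨k', hk'⟩ := hrep (g * t) hcz
      have hSk : ν.St k m := key γ g h k hx.symm h1 hk hS
      have e1 : (t : HNNExtension H A B φ)⁻¹ * of k * t = of k' := by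
        rw [← hk', ← hk]; group
      have hkB : k ∈ B := (conj_t k).1 ⟨k', e1⟩
      have e2 : k' = φ.symm ⟨k, hkB⟩ := by
        have := equiv_symm_eq_conj (φ := φ) (⟨k, hkB⟩ : B)
        exact of_injective _ (e1.symm.trans this.symm)
      have hSk' : ν.St k' m := by
        rw [e2, hφ]
        rwa [MulEquiv.apply_symm_apply]
      exact ih hcp (g * t) γ' k' h' rfl hy hk' h2 hSk'
    · obtain ⟨k', hk'⟩ := hrep g hcz
      obtain ⟨k, hk⟩ := hrep (g * t) hcx
      have hSk : ν.St k m := key γ (g * t) h k hx.symm h1 hk hS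
      have e1 : (t : HNNExtension H A B φ)⁻¹ * of k' * t = of k := by
        rw [← hk', ← hk]; group
      have hkB : k' ∈ B := (conj_t k').1 ⟨k, e1⟩
      have e2 : k = φ.symm ⟨k', hkB⟩ := by
        have := equiv_symm_eq_conj (φ := φ) (⟨k', hkB⟩ : B)
        exact of_injective _ (e1.symm.trans this.symm)
      have hSk' : ν.St k' m := by
        have h3 := (hφ (φ.symm ⟨k', hkB⟩) m).1 (e2 ▸ hSk)
        rwa [MulEquiv.apply_symm_apply] at h3
      exact ih hcp g γ' k' h' rfl hy hk' h2 hSk'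

/-- the elements of infinite order of the edge stabilizers are balanced -/
theorem bal_hnn (ν : Len H) (hφ : ∀ (a : A) (m : ℝ), ν.St (a : H) m ↔ ν.St (φ a : H) m)
    (hpos : ∀ a ∈ A, a ≠ 1 → ∃ m, 0 < m ∧ ν.St a m) :
    ∀ x y : Vert φ, (graph φ).Adj x y → ∀ c ∈ St (HNNExtension H A B φ) x y, ¬ IsOfFinOrder c →
      Bal c := by
  intro x y hxy c hc hc' g p q hp hpq
  -- the element of `H` which represents `c` at one end of the edge
  obtain ⟨γ, h, m, hm, hγ, hh, hS⟩ : ∃ (γ : HNNExtension H A B φ) (h : H) (m : ℝ), 0 < m ∧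
      c • (vt γ : Vert φ) = vt γ ∧ γ⁻¹ * c * γ = of h ∧ ν.St h m := by
    have hadj : ∀ k : HNNExtension H A B φ, c • (vt k : Vert φ) = vt k →
        c • (vt (k * t⁻¹) : Vert φ) = vt (k * t⁻¹) →
        ∃ (γ : HNNExtension H A B φ) (h : H) (m : ℝ), 0 < m ∧
          c • (vt γ : Vert φ) = vt γ ∧ γ⁻¹ * c * γ = of h ∧ ν.St h m := by
      intro k h1 h2
      have h1' := h1
      rw [smul_vt, eq_comm, vt_eq_iff] at h1
      obtain ⟨b, hb⟩ := h1
      have hb' : k⁻¹ * c * k = of b := by rw [mul_assoc, ← hb]; group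
      have h3 : (of b : HNNExtension H A B φ) • (vt t⁻¹ : Vert φ) = vt t⁻¹ := by
        rw [← hb', mul_smul, mul_smul, smul_vt, h2, smul_vt]
        congr 1
        group
      have h4 := (fix_t_inv (φ := φ) 1 b).mp (by rw [map_one, one_mul]; exact h3)
      have h5 : b ∈ A := by simpa using h4
      have hb1 : b ≠ 1 := by
        rintro rfl
        apply hc'
        rw [map_one] at hb'
        have : c = 1 := by
          have h6 : c = k * (k⁻¹ * c * k) * k⁻¹ := by group
          rw [h6, hb']; group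
        rw [this]
        exact IsOfFinOrder.one
      obtain ⟨m, hm, hS⟩ := hpos b h5 hb1
      exact ⟨k, b, m, hm, h1', hb', hS⟩
    obtain ⟨k, ⟨rfl, rfl⟩ | ⟨rfl, rfl⟩⟩ := adj_iff.mp hxy
    · refine hadj (k * t) hc.2 ?_
      rw [mul_inv_cancel_right]
      exact hc.1
    · refine hadj (k * t) hc.1 ?_
      rw [mul_inv_cancel_right]
      exact hc.2
  -- the power `c ^ q` fixes `vt γ` and `vt (g * γ)`
  have hcs : ∀ k : ℤ, c ^ k • (vt γ : Vert φ) = vt γ := fun k =>
    zpow_mem (show c ∈ MulAction.stabilizer _ (vt γ : Vert φ) from hγ) k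
  have e1 : γ⁻¹ * c ^ q * γ = of (h ^ q) := by
    rw [map_zpow, ← hh]
    have : (γ⁻¹ * c * γ) ^ q = γ⁻¹ * c ^ q * γ := by
      have := conj_zpow (a := γ⁻¹) (b := c) (i := q)
      rwa [inv_inv] at this
    exact this.symm
  have e2 : (g * γ)⁻¹ * c ^ q * (g * γ) = of (h ^ p) := by
    rw [← hpq, map_zpow, ← hh]
    have : (γ⁻¹ * c * γ) ^ p = γ⁻¹ * c ^ p * γ := by
      have := conj_zpow (a := γ⁻¹) (b := c) (i := p)
      rwa [inv_inv] at this
    rw [this]
    group
  have hfy : c ^ q • (vt (g * γ) : Vert φ) = vt (g * γ) := by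
    rw [smul_vt, eq_comm, vt_eq_iff]
    exact ⟨h ^ p, by rw [← e2]; group⟩
  obtain ⟨w, hw, _⟩ := (isTree (φ := φ)).existsUnique_path (vt γ) (vt (g * γ))
  have hfix := fix_path (isTree (φ := φ)) (treeAct (φ := φ)).adj w hw (hcs q) hfy
  have h6 := path_len ν hφ w (c ^ q) hfix (|(q : ℝ)| * m) γ (g * γ) (h ^ q) (h ^ p) rfl rfl e1 e2
    (hS.zpow q)
  have h7 := h6.unique (hS.zpow p)
  have h8 : |(q : ℝ)| = |(p : ℝ)| := mul_right_cancel₀ hm.ne' h7
  rcases abs_eq_abs.1 h8 with h9 | h9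
  · left; exact_mod_cast h9
  · right; exact_mod_cast h9

end hnn

end Pool.Agent.H4.SE
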